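import Mathlib
import Pool.Agent.Q16.Lad.Top

/-!
# A subgroup without suitable set of a topologically orderable group with a suitable set

`H` is the group of functions on `ω₂` generated by the unit vectors and the indicators of ladders
at the points of countable cofinality, with the lexicographic order; `G = H ×ₗ H` with the order
topology.  `G` has the suitable set `{(h, 0)} ∪ {(h, h)}`; the subgroup `0 × H` has none.
-/

open Set Filter Topology

namespace Pool.Agent.Results.MP_1c9ee6_al.NoSuitableSet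

/-- Gyrogroups. -/
class Gyrogroup (G : Type) where
  /-- the operation `a ⊕ b` -/
  op : G → G → G
  /-- the identity -/
  one : G
  /-- the inverse `⊖ a` -/
  inv : G → G
  /-- the gyrations (bijections of `G`) -/
  gyr : G → G → G ≃ G
  one_op : ∀ a, op one a = a
  inv_op : ∀ a, op (inv a) a = one
  gyr_hom : ∀ a b c d, gyr a b (op c d) = op (gyr a b c) (gyr a b d)
  assoc : ∀ a b c, op a (op b c) = op (op a b) (gyr a b c)
  loop : ∀ a b, gyr a b = gyr (op a b) b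

open Gyrogroup

/-- Subgyrogroups. -/
def IsSubgyrogroup {G : Type} [Gyrogroup G] (K : Set G) : Prop :=
  K.Nonempty ∧ (∀ a ∈ K, inv a ∈ K) ∧ ∀ a ∈ K, ∀ b ∈ K, op a b ∈ K

/-- The subgyrogroup generated by `S`. -/
def gen {G : Type} [Gyrogroup G] (S : Set G) : Set G :=
  {x | ∀ K : Set G, IsSubgyrogroup K → S ⊆ K → x ∈ K}

/-- Topological gyrogroups. -/
def IsTopologicalGyrogroup (G : Type) [Gyrogroup G] [TopologicalSpace G] : Prop :=
  (Continuous fun p : G × G => op p.1 p.2) ∧ Continuous fun a : G => inv a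

/-- Strongly topological: there is a neighbourhood base at `1` of sets invariant under all
gyrations. -/
def IsStrong (G : Type) [Gyrogroup G] [TopologicalSpace G] : Prop :=
  ∃ B : Set (Set G), (∀ U ∈ B, U ∈ 𝓝 (one : G)) ∧ (∀ V ∈ 𝓝 (one : G), ∃ U ∈ B, U ⊆ V) ∧
    ∀ U ∈ B, ∀ x y : G, gyr x y '' U = U

/-- Topologically orderable: the topology is the order topology of a total order. -/
def IsOrderable (G : Type) [τ : TopologicalSpace G] : Prop :=
  ∃ o : LinearOrder G, τ = @Preorder.topology G o.toPreorder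

/-- `S` is a suitable set for the subgyrogroup `K` of `G`: `S` is a subset of `K`, discrete in the
subspace topology, `S ∪ {1}` is closed in `K`, and the subgyrogroup generated by `S` is dense
in `K`. -/
def IsSuitable {G : Type} [Gyrogroup G] [TopologicalSpace G] (K S : Set G) : Prop :=
  S ⊆ K ∧ DiscreteTopology S ∧
    IsClosed ((Subtype.val : K → G) ⁻¹' (S ∪ {one})) ∧ K ⊆ closure (gen S)

open Q16.Lad

variable {I : Type} [LinearOrder I] [WellFoundedLT I]

/-- The group `H ×ₗ H` as a gyrogroup with trivial gyrations. -/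
noncomputable instance instGyro : Gyrogroup (G2 I) where
  op a b := a + b
  one := 0
  inv a := -a
  gyr _ _ := Equiv.refl _
  one_op := zero_add
  inv_op := neg_add_cancel
  gyr_hom _ _ _ _ := rfl
  assoc a b c := (add_assoc a b c).symm
  loop _ _ := rfl

theorem gen_univ [Idx I] : gen {g : G2 I | ∃ h : H I, g = pr h 0 ∨ g = pr h h} = univ := by
  rw [eq_univ_iff_forall]
  intro g K hK hS
  obtain ⟨h, x, rfl⟩ := exists_pr g
  have h1 : pr h 0 ∈ K := hS ⟨h, Or.inl rfl⟩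
  have h2 : pr x x ∈ K := hS ⟨x, Or.inr rfl⟩
  have h3 : pr x 0 ∈ K := hS ⟨x, Or.inl rfl⟩
  have h4 : -pr x 0 ∈ K := hK.2.1 _ h3
  have h5 : pr x x + -pr x 0 ∈ K := hK.2.2 _ h2 _ h4
  have h6 : pr h 0 + (pr x x + -pr x 0) ∈ K := hK.2.2 _ h1 _ h5
  have e : pr h 0 + (pr x x + -pr x 0) = pr h x := by
    rw [pr_neg, pr_add, pr_add, add_neg_cancel, add_zero, neg_zero, add_zero, zero_add]
  rw [e] at h6
  exact h6

/-- Around every point there is a neighbourhood containing at most one point of the suitable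
set. -/
theorem locally_one [Idx I] (g : G2 I) :
    ∃ U ∈ 𝓝 g, ∀ s ∈ {g : G2 I | ∃ h : H I, g = pr h 0 ∨ g = pr h h}, s ∈ U → s = g := by
  obtain ⟨h, x, rfl⟩ := exists_pr g
  have key : ∀ z : H I, ∃ α, Ag α (z : L I) x → z = x := by
    intro z
    by_cases hz : z = x
    · obtain ⟨α⟩ := idx_nonempty (I := I)
      exact ⟨α, fun _ => hz⟩
    · have : ∃ ξ, co (z : L I) ξ ≠ co (x : L I) ξ := by
        by_contra hc
        push Not at hc
        exact hz (Subtype.ext (ext_co hc))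
      obtain ⟨ξ, hξ⟩ := this
      obtain ⟨α, hα⟩ := exists_gt' ξ
      exact ⟨α, fun hag => absurd (hag ξ hα) hξ⟩
  obtain ⟨α, hα⟩ := key 0
  obtain ⟨α', hα'⟩ := key h
  refine ⟨_, inter_mem (nhds_mem h x α) (nhds_mem h x α'), ?_⟩
  rintro s ⟨h', hs⟩ ⟨⟨y, hy, hsy⟩, ⟨y', hy', hsy'⟩⟩
  rw [hsy, pr_inj] at hsy'
  obtain ⟨-, rfl⟩ := hsy'
  rcases hs with hs | hs
  · rw [hsy, pr_inj] at hs
    obtain ⟨-, rfl⟩ := hs
    rw [hsy, hα hy]
  · rw [hsy, pr_inj] at hs
    obtain ⟨rfl, rfl⟩ := hs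
    rw [hsy, hα' hy']

theorem suitable_univ [Idx I] :
    IsSuitable (univ : Set (G2 I)) {g : G2 I | ∃ h : H I, g = pr h 0 ∨ g = pr h h} := by
  refine ⟨subset_univ _, ?_, ?_, ?_⟩
  · rw [discreteTopology_subtype_iff']
    intro s hs
    obtain ⟨U, hU, h1⟩ := locally_one s
    obtain ⟨V, hVU, hV, hsV⟩ := mem_nhds_iff.1 hU
    refine ⟨V, hV, ?_⟩
    ext t
    constructor
    · rintro ⟨ht1, ht2⟩
      exact h1 t ht2 (hVU ht1)
    · rintro rfl
      exact ⟨hsV, hs⟩
  · have hcl : IsClosed {g : G2 I | ∃ h : H I, g = pr h 0 ∨ g = pr h h} := by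
      rw [← isOpen_compl_iff, isOpen_iff_mem_nhds]
      intro g hg
      obtain ⟨U, hU, h1⟩ := locally_one g
      filter_upwards [hU] with t ht htS
      rw [h1 t htS ht] at htS
      exact hg htS
    exact (hcl.union isClosed_singleton).preimage continuous_subtype_val
  · rw [gen_univ, closure_univ]

/-- The second factor. -/
def K2 (I : Type) [LinearOrder I] [WellFoundedLT I] : Set (G2 I) := {g | ∃ x : H I, g = pr 0 x}

theorem not_suitable [Idx I] (S : Set (G2 I)) : ¬ IsSuitable (K2 I) S := by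
  rintro ⟨hSK, hdis, hcl, hdense⟩
  let S₀ : Set (L I) := {x | ∃ h : x ∈ H I, pr 0 ⟨x, h⟩ ∈ S}
  apply no_suitable S₀ (fun x hx => hx.1)
  · intro x hx hne
    have hg0 : pr (0 : H I) ⟨x, hx⟩ ≠ 0 := by
      rw [← pr_zero, Ne, pr_inj]
      rintro ⟨-, h⟩
      exact hne (congrArg Subtype.val h)
    by_cases hgS : pr (0 : H I) ⟨x, hx⟩ ∈ S
    · rw [discreteTopology_subtype_iff'] at hdis
      obtain ⟨V, hV, hVS⟩ := hdis _ hgS
      have hgV : pr (0 : H I) ⟨x, hx⟩ ∈ V ∩ S := by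
        rw [hVS]
        exact mem_singleton _
      obtain ⟨α, hα⟩ := nhds_sub (hV.mem_nhds hgV.1)
      refine ⟨α, fun s hs hag => ?_⟩
      obtain ⟨hsH, hsS⟩ := hs
      have h1 : pr (0 : H I) ⟨s, hsH⟩ ∈ V ∩ S := ⟨hα ⟨s, hsH⟩ hag, hsS⟩
      rw [hVS, mem_singleton_iff, pr_inj] at h1
      exact congrArg Subtype.val h1.2
    · -- the point is not in the closed set
      obtain ⟨C, hC, hCeq⟩ := isClosed_induced_iff.1 hcl
      have hgC : pr (0 : H I) ⟨x, hx⟩ ∉ C := by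
        intro h
        have h1 : (⟨pr 0 ⟨x, hx⟩, ⟨⟨x, hx⟩, rfl⟩⟩ : K2 I) ∈ (Subtype.val : K2 I → G2 I) ⁻¹' C := h
        rw [hCeq] at h1
        rcases h1 with h1 | h1
        · exact hgS h1
        · exact hg0 h1
      obtain ⟨α, hα⟩ := nhds_sub (hC.isOpen_compl.mem_nhds hgC)
      refine ⟨α, fun s hs hag => ?_⟩
      obtain ⟨hsH, hsS⟩ := hs
      exfalso
      apply hα ⟨s, hsH⟩ hag
      have h1 : (⟨pr 0 ⟨s, hsH⟩, ⟨⟨s, hsH⟩, rfl⟩⟩ : K2 I) ∈ (Subtype.val : K2 I → G2 I) ⁻¹' C := by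
        rw [hCeq]
        exact Or.inl hsS
      exact h1
  · intro x hx α
    have h1 : pr (0 : H I) ⟨x, hx⟩ ∈ closure (gen S) := hdense ⟨⟨x, hx⟩, rfl⟩
    obtain ⟨g, ⟨y, hag, rfl⟩, hg⟩ := mem_closure_iff_nhds.1 h1 _ (nhds_mem 0 ⟨x, hx⟩ α)
    have hsub : IsSubgyrogroup {g : G2 I | ∃ y : H I, (y : L I) ∈ AddSubgroup.closure S₀ ∧
        g = pr 0 y} := by
      refine ⟨⟨pr 0 0, 0, zero_mem _, rfl⟩, ?_, ?_⟩
      · rintro _ ⟨y, hy, rfl⟩
        refine ⟨-y, neg_mem hy, ?_⟩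
        change -pr 0 y = _
        rw [pr_neg, neg_zero]
      · rintro _ ⟨y, hy, rfl⟩ _ ⟨z, hz, rfl⟩
        refine ⟨y + z, add_mem hy hz, ?_⟩
        change pr 0 y + pr 0 z = _
        rw [pr_add, add_zero]
    obtain ⟨z, hz, hyz⟩ := hg _ hsub (by
      intro s hs
      obtain ⟨z, rfl⟩ := hSK hs
      exact ⟨z, AddSubgroup.subset_closure ⟨z.2, hs⟩, rfl⟩)
    rw [pr_inj] at hyz
    obtain ⟨-, rfl⟩ := hyz
    exact ⟨y, hz, hag⟩

/-- The negated form of Q1: a strongly topologically orderable gyrogroup with a suitable set and a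
subgyrogroup without a suitable set. -/
theorem result : ∃ (G : Type) (_ : Gyrogroup G) (_ : TopologicalSpace G),
    IsTopologicalGyrogroup G ∧ IsStrong G ∧ IsOrderable G ∧
    (∃ S : Set G, IsSuitable univ S) ∧
    ∃ K : Set G, IsSubgyrogroup K ∧ ¬ ∃ S : Set G, IsSuitable K S := by
  obtain ⟨I, _, _, _⟩ := exists_idx
  refine ⟨G2 I, inferInstance, inferInstance, ⟨?_, ?_⟩, ?_, ⟨inferInstance, rfl⟩,
    ⟨_, suitable_univ⟩, K2 I, ?_, ?_⟩
  · exact continuous_add
  · exact continuous_neg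
  · refine ⟨{U | U ∈ 𝓝 (one : G2 I)}, fun U hU => hU, fun V hV => ⟨V, hV, subset_rfl⟩, ?_⟩
    intro U _ x y
    change (fun z => z) '' U = U
    exact image_id' U
  · refine ⟨⟨pr 0 0, 0, rfl⟩, ?_, ?_⟩
    · rintro _ ⟨x, rfl⟩
      refine ⟨-x, ?_⟩
      change -pr 0 x = _
      rw [pr_neg, neg_zero]
    · rintro _ ⟨x, rfl⟩ _ ⟨y, rfl⟩
      refine ⟨x + y, ?_⟩
      change pr 0 x + pr 0 y = _
      rw [pr_add, add_zero]
  · rintro ⟨S, hS⟩
    exact not_suitable S hS

end Pool.Agent.Results.MP_1c9ee6_al.NoSuitableSet
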